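import Pool.Agent.H97.PR.Targets

/-! Row RND: one round. -/

set_option autoImplicit false

namespace Pool.Agent.H51.PRY

open Finset Pool.Agent.H97.PR

open Classical in
theorem cnt_cover {n : ℕ} (S s : ℕ) (A : ℕ → Set (E n)) (p : E n → Prop) :
    cnt (fun x => p x ∧ ∃ u, u < S ∧ cnt (fun y => y ∈ A u) ≤ 2 ^ s ∧ x ∈ A u) ≤ S * 2 ^ s := by
  unfold cnt
  refine (card_le_card (t := ((range S).filter (fun u =>
      (univ.filter fun y : E n => y ∈ A u).card ≤ 2 ^ s)).biUnion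
        (fun u => univ.filter fun y : E n => y ∈ A u)) ?_).trans (card_biUnion_le.trans ?_)
  · intro x hx
    simp only [mem_filter, mem_univ, true_and] at hx
    obtain ⟨-, u, hu, hc, hxu⟩ := hx
    rw [mem_biUnion]
    exact ⟨u, mem_filter.2 ⟨mem_range.2 hu, hc⟩, mem_filter.2 ⟨mem_univ _, hxu⟩⟩
  calc ∑ u ∈ (range S).filter (fun u => (univ.filter fun y : E n => y ∈ A u).card ≤ 2 ^ s),
        (univ.filter fun y : E n => y ∈ A u).card
      ≤ ∑ u ∈ (range S).filter (fun u => (univ.filter fun y : E n => y ∈ A u).card ≤ 2 ^ s),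
        2 ^ s := sum_le_sum fun u hu => (mem_filter.1 hu).2
    _ = ((range S).filter (fun u =>
        (univ.filter fun y : E n => y ∈ A u).card ≤ 2 ^ s)).card * 2 ^ s := by
        rw [sum_const, smul_eq_mul]
    _ ≤ S * 2 ^ s := by
        apply Nat.mul_le_mul_right
        exact (card_filter_le _ _).trans (le_of_eq (card_range S))

theorem pf_RND (hCVR : T_CVR) (hMNM : T_MNM) : T_RND := by
  intro n N k m blk γ B D q σ g F G hE S A h hD s i a V Cl hi hst hpc hlt
  by_contra hcon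
  have hno : ∀ (i' : ℕ) (a' : E n) (V' : Submodule (ZMod 2) (E n)) (Cl' : Finset (Fin N)),
      i' < S → Sta blk γ g G a' V' Cl' → pc a' V' ⊆ A i' →
      h i' + dm V ≤ h i + (γ * N + B * q) → dm V' + γ * N ≤ s := by
    intro i' a' V' Cl' h1 h2 h3 h4
    by_contra h5
    exact hcon ⟨i', a', V', Cl', h1, h2, h3, not_le.1 h5, h4⟩
  have key := hCVR n N k m blk γ B D q σ g F G hE S A h hD s (dm V + γ * Cl.card) (h i)
    (by
      intro i1 a1 V1 Cl1 hi1 hst1 hpc1 hpot hh
      obtain ⟨V2, Cl2, hst2, hpc2, hc2⟩ := hMNM n N k m blk γ g F D G hE.adv a1 V1 Cl1 (A i1)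
        (hD.aff i1 hi1) hst1 hpc1
      have h1 := hno i1 a1 V2 Cl2 hi1 hst2 hpc2 (by omega)
      refine hc2.trans (Nat.pow_le_pow_right (by norm_num) ?_)
      have h2 : Cl2.card ≤ N := by
        have := card_le_univ Cl2
        rwa [Fintype.card_fin] at this
      have h3 : γ * Cl2.card ≤ γ * N := Nat.mul_le_mul_left _ h2
      omega)
    i a V Cl hi hst hpc (by omega)
  have h1 := cnt_cover S s A (fun x => x ∈ pc a V)
  have h2 : (4 : ℕ) ^ (N - Cl.card) ≤ 4 ^ N := Nat.pow_le_pow_right (by norm_num) (Nat.sub_le _ _)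
  have h3 := Nat.mul_le_mul h2 h1
  have h4 : 2 ^ dm V ≤ 4 ^ N * (S * 2 ^ s) := key.trans h3
  have h5 : 4 ^ N * (S * 2 ^ s) = S * 2 ^ s * 4 ^ N := by ring
  omega

end Pool.Agent.H51.PRY
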